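import Pool.Agent.L7h63.RW.Count

/-!
# MP_ffcf77_al: a word satisfied by the lazy random walk with probability tending to one that is
# not a law

`G` is a finitely generated subgroup of the wreath product of a finite group (with non-abelian
derived subgroup) and `ℤ⁶`, with a symmetric generating set; the word is `[[x,y], z[x,y]z⁻¹]`.
-/

set_option autoImplicit false

open Filter Topology Finset

namespace Pool.Agent.Results.MP_ffcf77_al.ProbabilityOneNotLaw

open Pool.Agent.L7h63.RW

/-- The families of step sequences `s^{(i)}_1,…,s^{(i)}_n` (`i` ranging over `d` walkers) with all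
steps in `S ∪ {1}`. -/
def Steps {G : Type} [Group G] (S : Set G) (d n : ℕ) : Set (Fin d → Fin n → G) :=
  {s | ∀ i j, s i j ∈ S ∪ {1}}

/-- The positions `R_n^{(i)} = s^{(i)}_1 s^{(i)}_2 ⋯ s^{(i)}_n` of the `d` walkers. -/
def walk {G : Type} [Group G] {d n : ℕ} (s : Fin d → Fin n → G) : Fin d → G :=
  fun i => (List.ofFn (s i)).prod

/-- `p_n(w)`: the probability, for `d` independent lazy random walks of length `n` with steps
uniform on the finite set `S ∪ {1}`, that `w(R_n^{(1)},…,R_n^{(d)}) = 1`. As the steps are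
independent and uniform, this is the proportion of favourable families of step sequences. -/
noncomputable def prob {G : Type} [Group G] (S : Set G) {d : ℕ} (w : FreeGroup (Fin d)) (n : ℕ) : ℝ :=
  (Nat.card {s // s ∈ Steps S d n ∧ FreeGroup.lift (walk s) w = 1} : ℝ) /
    (Nat.card {s // s ∈ Steps S d n} : ℝ)

/-! ### the group -/

/-- the group -/
abbrev G : Type := Subgroup.closure (Set.range gen)

lemma gen_mem (t : I) : gen t ∈ Subgroup.closure (Set.range gen) :=
  Subgroup.subset_closure ⟨t, rfl⟩

/-- the generators as elements of `G` -/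
def gen' (t : I) : G := ⟨gen t, gen_mem t⟩

lemma gen'_injective : Function.Injective gen' := by
  intro s t h
  exact gen_injective (congrArg Subtype.val h)

/-- the generating set -/
abbrev S : Set G := Set.range gen'

lemma S_finite : S.Finite := Set.finite_range _

lemma S_symm : ∀ s ∈ S, s⁻¹ ∈ S := by
  rintro _ ⟨t, rfl⟩
  obtain ⟨t', ht'⟩ := gen_inv t
  refine ⟨t', ?_⟩
  apply Subtype.ext
  exact ht'

lemma one_mem_S : (1 : G) ∈ S := ⟨i0, Subtype.ext gen_i0⟩

lemma S_union : S ∪ {1} = S := by
  rw [Set.union_eq_left, Set.singleton_subset_iff]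
  exact one_mem_S

lemma S_closure : Subgroup.closure S = ⊤ := by
  have h : S = (Subtype.val : G → W) ⁻¹' (Set.range gen) := by
    ext x
    constructor
    · rintro ⟨t, rfl⟩
      exact ⟨t, rfl⟩
    · rintro ⟨t, ht⟩
      exact ⟨t, Subtype.ext ht⟩
  rw [h]
  exact Subgroup.closure_closure_coe_preimage

/-! ### the count -/

/-- step families parametrised by indices -/
noncomputable def stepsEquiv (d n : ℕ) : (Fin d → Fin n → I) ≃ {s // s ∈ Steps S d n} :=
  Equiv.ofBijective (fun t => ⟨fun i j => gen' (t i j), fun i j => Or.inl ⟨_, rfl⟩⟩) <| by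
    constructor
    · intro s t h
      funext i j
      exact gen'_injective (congrFun (congrFun (congrArg Subtype.val h) i) j)
    · rintro ⟨s, hs⟩
      have hs' : ∀ i j, ∃ t, gen' t = s i j := by
        intro i j
        have := hs i j
        rw [S_union] at this
        exact this
      choose t ht using hs'
      exact ⟨t, Subtype.ext (funext fun i => funext fun j => ht i j)⟩

lemma card_steps (d n : ℕ) : Nat.card {s // s ∈ Steps S d n} = ((Fintype.card I) ^ n) ^ d := by
  rw [← Nat.card_congr (stepsEquiv d n)]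
  simp

lemma walk_coe {d n : ℕ} (t : Fin d → Fin n → I) (i : Fin d) :
    ((walk (fun i j => gen' (t i j)) i : G) : W) = pos (t i) := by
  unfold walk pos
  rw [← Subgroup.coe_subtype, map_list_prod, List.map_ofFn]
  rfl

lemma lift_coe {d : ℕ} (g : Fin d → G) (w : FreeGroup (Fin d)) :
    ((FreeGroup.lift g w : G) : W) = FreeGroup.lift (fun i => (g i : W)) w := by
  have : (Subgroup.subtype _).comp (FreeGroup.lift g) =
      FreeGroup.lift (fun i => (g i : W)) := by
    ext i : 1
    simp
  exact DFunLike.congr_fun this w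

lemma card_good (n : ℕ) :
    Nat.card {s // s ∈ Steps S 3 n ∧ FreeGroup.lift (walk s) word = 1} + (bad n).card =
      ((Fintype.card I) ^ n) ^ 3 := by
  classical
  have e : {s // s ∈ Steps S 3 n ∧ FreeGroup.lift (walk s) word = 1} ≃
      {t : Fin 3 → Fin n → I // t ∉ bad n} := by
    symm
    refine (Equiv.trans ?_ (Equiv.subtypeSubtypeEquivSubtypeInter
      (fun s => s ∈ Steps S 3 n) (fun s => FreeGroup.lift (walk s) word = 1)))
    refine (stepsEquiv 3 n).subtypeEquiv ?_
    intro t
    have h1 : t ∉ bad n ↔ FreeGroup.lift (fun i => pos (t i)) word = 1 := by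
      simp [bad]
    rw [h1]
    have h2 : (fun i => pos (t i)) = fun i => ((walk (fun i j => gen' (t i j)) i : G) : W) := by
      funext i
      exact (walk_coe t i).symm
    rw [h2, ← lift_coe]
    constructor
    · intro h
      exact Subtype.ext h
    · intro h
      exact congrArg Subtype.val h
  rw [Nat.card_congr e, Nat.card_eq_fintype_card]
  rw [Fintype.card_subtype_compl, Fintype.card_coe, Nat.sub_add_cancel (card_le_univ _)]
  simp

lemma prob_ge (n : ℕ) : 1 - 64 * (n : ℝ) ^ 2 / (2 * n + 1) ^ 3 ≤ prob S word n := by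
  have h := card_good n
  have hI : (0 : ℝ) < (Fintype.card I : ℝ) ^ n := by
    have : (0 : ℝ) < Fintype.card I := by rw [card_I]; norm_num
    positivity
  have h2 : (Nat.card {s // s ∈ Steps S 3 n ∧ FreeGroup.lift (walk s) word = 1} : ℝ) =
      ((Fintype.card I : ℝ) ^ n) ^ 3 - (bad n).card := by
    rw [eq_sub_iff_add_eq]
    exact_mod_cast h
  unfold prob
  rw [h2, card_steps]
  push_cast
  rw [sub_div, div_self (by positivity)]
  have := bad_ratio n
  linarith

lemma prob_le (n : ℕ) : prob S word n ≤ 1 := by
  unfold prob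
  apply div_le_one_of_le₀ _ (by positivity)
  have h := card_good n
  rw [card_steps]
  exact_mod_cast (by omega : Nat.card {s // s ∈ Steps S 3 n ∧ FreeGroup.lift (walk s) word = 1} ≤
      ((Fintype.card I) ^ n) ^ 3)

/-! ### the word is not a law -/

/-- the lamp group `S₄` inside `G` -/
def lampG : Equiv.Perm (Fin 4) →* G :=
  (lamp.comp (MonoidHom.inl _ _)).codRestrict _ (by
    intro σ
    have : (lamp.comp (MonoidHom.inl _ _)) σ = gen (σ, fun _ => (false, false)) := by
      unfold gen
      rw [if_pos]
      · rfl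
      · rfl
    rw [this]
    exact gen_mem _)

lemma lampG_injective : Function.Injective lampG := by
  intro σ τ h
  have h1 := congrArg Subtype.val h
  have h2 : lamp (σ, 1) = lamp (τ, 1) := h1
  exact (Prod.mk.inj (lamp_injective h2)).1

lemma not_law : ∃ g : Fin 3 → G, FreeGroup.lift g word ≠ 1 := by
  refine ⟨fun i => lampG (![Equiv.swap 0 1, Equiv.swap 1 2, Equiv.swap 2 3] i), ?_⟩
  intro h
  have h2 : (lampG.comp (FreeGroup.lift (fun i =>
      (![Equiv.swap 0 1, Equiv.swap 1 2, Equiv.swap 2 3] : Fin 3 → Equiv.Perm (Fin 4)) i))) word = 1 := by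
    rw [← h]
    congr 1
    ext i : 1
    simp
  rw [MonoidHom.comp_apply, map_eq_one_iff lampG lampG_injective, lift_word] at h2
  revert h2
  decide

/-- **Negative answer to Q1.** There are a group `G`, a finite generating set `S` of `G` that is
even symmetric, and a word `w` in three letters such that the probability `p_n(w)` that `w` vanishes
on three independent lazy random walks tends to one (with `p_n(w) ≥ 1 - 8/n`), although `w` is not
a law of `G`. -/
theorem result : ∃ (G : Type) (_ : Group G) (S : Set G), S.Finite ∧ (∀ s ∈ S, s⁻¹ ∈ S) ∧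
    Subgroup.closure S = ⊤ ∧ ∃ w : FreeGroup (Fin 3),
      (∀ n : ℕ, 1 ≤ n → 1 - 8 / (n : ℝ) ≤ prob S w n) ∧
      Tendsto (fun n : ℕ => prob S w n) atTop (𝓝 1) ∧
      ∃ g : Fin 3 → G, FreeGroup.lift g w ≠ 1 := by
  have key : ∀ n : ℕ, 1 ≤ n → 1 - 8 / (n : ℝ) ≤ prob S word n := by
    intro n hn
    refine le_trans ?_ (prob_ge n)
    have hn' : (1 : ℝ) ≤ n := by exact_mod_cast hn
    have : 64 * (n : ℝ) ^ 2 / (2 * n + 1) ^ 3 ≤ 8 / n := by
      rw [div_le_div_iff₀ (by positivity) (by positivity)]
      nlinarith [sq_nonneg (n : ℝ)]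
    linarith
  refine ⟨G, inferInstance, S, S_finite, S_symm, S_closure, word, key, ?_, not_law⟩
  refine tendsto_of_tendsto_of_tendsto_of_le_of_le' (g := fun n : ℕ => 1 - 8 / (n : ℝ))
    (h := fun _ => 1) ?_ tendsto_const_nhds ?_ (Eventually.of_forall prob_le)
  · have : Tendsto (fun n : ℕ => 8 / (n : ℝ)) atTop (𝓝 0) :=
      tendsto_const_div_atTop_nhds_zero_nat 8
    simpa using tendsto_const_nhds.sub this
  · filter_upwards [eventually_ge_atTop 1] with n hn using key n hn

end Pool.Agent.Results.MP_ffcf77_al.ProbabilityOneNotLaw
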